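import Mathlib

/-!
# Project OC (helper213): images of balls under injective maps with one exceptional point
-/
set_option autoImplicit false
open Set Filter Topology Metric Function
open scoped ContDiff

namespace Pool.Agent.N213.OC

variable {V : Type*} [NormedAddCommGroup V] [NormedSpace ℝ V]

/-- a punctured ball is preconnected -/
theorem preconn_punctured (h : 1 < Module.rank ℝ V) (c : V) (η : ℝ) :
    IsPreconnected (ball c η \ {c}) := by
  have : ball c η \ {c} = (fun p : ℝ × V => c + p.1 • p.2) '' (Ioo 0 η ×ˢ sphere (0:V) 1) := by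
    ext z
    constructor
    · rintro ⟨h1, h2⟩
      have h3 : 0 < ‖z - c‖ := norm_pos_iff.2 (sub_ne_zero.2 h2)
      refine ⟨(‖z - c‖, ‖z - c‖⁻¹ • (z - c)), ⟨⟨h3, mem_ball_iff_norm.1 h1⟩, ?_⟩, ?_⟩
      · rw [mem_sphere_zero_iff_norm, norm_smul, norm_inv, norm_norm, inv_mul_cancel₀ h3.ne']
      · show c + ‖z - c‖ • (‖z - c‖⁻¹ • (z - c)) = z
        rw [smul_smul, mul_inv_cancel₀ h3.ne', one_smul, add_sub_cancel]
    · rintro ⟨⟨t, u⟩, ⟨⟨h1, h2⟩, h3⟩, rfl⟩
      have h4 : ‖u‖ = 1 := by simpa using h3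
      have h5 : ‖t • u‖ = t := by rw [norm_smul, h4, mul_one, Real.norm_of_nonneg (le_of_lt h1)]
      constructor
      · rw [mem_ball_iff_norm]
        show ‖c + t • u - c‖ < η
        rw [add_sub_cancel_left, h5]; exact h2
      · intro h6
        have h7 : c + t • u = c := h6
        have h8 : t • u = 0 := by simpa using h7
        rw [h8, norm_zero] at h5
        exact absurd h5 (ne_of_lt h1)
  rw [this]
  exact (isPreconnected_Ioo.prod (isPreconnected_sphere h 0 1)).image _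
    (by fun_prop : Continuous (fun p : ℝ × V => c + p.1 • p.2)).continuousOn

theorem nontriv (h : 1 < Module.rank ℝ V) : Nontrivial V := by
  have : 0 < Module.rank ℝ V := lt_trans zero_lt_one h
  exact rank_pos_iff_nontrivial.1 this

/-- the image of a ball is a neighbourhood, one exceptional point -/
theorem image_nhds [FiniteDimensional ℝ V] (h : 1 < Module.rank ℝ V) (f : V → V) {δ : ℝ} (hδ : 0 < δ)
    (hc : ContinuousOn f (closedBall 0 δ)) (hi : InjOn f (closedBall 0 δ))
    (ho : ∀ y ∈ ball (0:V) δ, y ≠ 0 → map f (𝓝 y) = 𝓝 (f y)) :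
    f '' ball 0 δ ∈ 𝓝 (f 0) := by
  have := nontriv h
  have : ProperSpace V := FiniteDimensional.proper ℝ V
  have hK : IsCompact (f '' sphere 0 δ) :=
    (isCompact_sphere _ _).image_of_continuousOn (hc.mono sphere_subset_closedBall)
  have h0 : (0:V) ∈ closedBall (0:V) δ := mem_closedBall_self hδ.le
  have hcK : f 0 ∉ f '' sphere 0 δ := by
    rintro ⟨y, hy, hy'⟩
    have := hi (sphere_subset_closedBall hy) h0 hy'
    rw [this] at hy
    simp at hy
    exact hδ.ne hy
  obtain ⟨η, hη, hη'⟩ := Metric.mem_nhds_iff.1 (hK.isClosed.isOpen_compl.mem_nhds hcK)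
  have hWo : IsOpen (f '' (ball 0 δ \ {0})) := by
    rw [isOpen_iff_mem_nhds]
    rintro _ ⟨y, ⟨hy1, hy2⟩, rfl⟩
    rw [← ho y hy1 hy2]
    exact image_mem_map ((isOpen_ball.sdiff isClosed_singleton).mem_nhds ⟨hy1, hy2⟩)
  have hcl : closure (f '' (ball 0 δ \ {0})) ⊆ f '' closedBall 0 δ :=
    closure_minimal (image_mono (sdiff_subset.trans ball_subset_closedBall))
      ((isCompact_closedBall _ _).image_of_continuousOn hc).isClosed
  have hne : ((ball (f 0) η \ {f 0}) ∩ f '' (ball 0 δ \ {0})).Nonempty := by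
    have h1 : ∀ᶠ y in 𝓝[≠] (0:V), y ∈ ball (0:V) δ ∧ f y ∈ ball (f 0) η := by
      have h2 : ContinuousAt f 0 := hc.continuousAt (closedBall_mem_nhds _ hδ)
      have e1 : ∀ᶠ y in 𝓝 (0:V), y ∈ ball (0:V) δ := ball_mem_nhds _ hδ
      have e2 : ∀ᶠ y in 𝓝 (0:V), f y ∈ ball (f 0) η := h2.eventually (ball_mem_nhds _ hη)
      exact (e1.and e2).filter_mono nhdsWithin_le_nhds
    have : (𝓝[≠] (0:V)).NeBot := Module.punctured_nhds_neBot ℝ V 0
    obtain ⟨y, ⟨hy1, hy2⟩, hy3⟩ := (h1.and self_mem_nhdsWithin).exists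
    refine ⟨f y, ⟨hy2, ?_⟩, ⟨y, ⟨hy1, hy3⟩, rfl⟩⟩
    intro h4
    exact hy3 (hi (ball_subset_closedBall hy1) h0 h4)
  have hsub : ball (f 0) η \ {f 0} ⊆ f '' (ball 0 δ \ {0}) := by
    refine (preconn_punctured h (f 0) η).subset_of_closure_inter_subset hWo hne ?_
    rintro z ⟨hz1, hz2, hz3⟩
    obtain ⟨y, hy, rfl⟩ := hcl hz1
    have hy0 : y ≠ 0 := by rintro rfl; exact hz3 rfl
    refine ⟨y, ⟨?_, hy0⟩, rfl⟩
    rcases (mem_closedBall.1 hy).lt_or_eq with h5 | h5
    · exact h5
    · exact absurd (mem_image_of_mem f (mem_sphere.2 h5)) (hη' hz2)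
  refine mem_of_superset (ball_mem_nhds _ hη) ?_
  intro z hz
  by_cases hzc : z = f 0
  · exact ⟨0, mem_ball_self hδ, hzc.symm⟩
  · exact image_mono sdiff_subset (hsub ⟨hz, hzc⟩)

/-- the images of a ball under maps that agree near the sphere -/
theorem image_sub [FiniteDimensional ℝ V] {f g : V → V} {r r' : ℝ}
    (hfc : ContinuousOn f (closedBall 0 r)) (hgc : ContinuousOn g (closedBall 0 r))
    (hgo : IsOpen (g '' ball 0 r)) (hfi : InjOn f (closedBall 0 r)) (hrr : r' < r)
    (hfg : ∀ y, r' ≤ ‖y‖ → ‖y‖ ≤ r → f y = g y) (hex : ∃ y : V, r' ≤ ‖y‖ ∧ ‖y‖ < r) :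
    f '' ball 0 r ⊆ g '' ball 0 r := by
  have : ProperSpace V := FiniteDimensional.proper ℝ V
  have hp : IsPreconnected (f '' ball 0 r) :=
    (convex_ball (0:V) r).isPreconnected.image _ (hfc.mono ball_subset_closedBall)
  refine hp.subset_of_closure_inter_subset hgo ?_ ?_
  · obtain ⟨y, hy1, hy2⟩ := hex
    have hyb : y ∈ ball (0:V) r := by simpa using hy2
    exact ⟨f y, mem_image_of_mem f hyb, by rw [hfg y hy1 hy2.le]; exact mem_image_of_mem g hyb⟩
  · rintro z ⟨hz1, y', hy', rfl⟩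
    have hcl : closure (g '' ball 0 r) ⊆ g '' closedBall 0 r :=
      closure_minimal (image_mono ball_subset_closedBall)
        ((isCompact_closedBall _ _).image_of_continuousOn hgc).isClosed
    obtain ⟨y, hy, hyz⟩ := hcl hz1
    have hy2 : ‖y‖ ≤ r := by simpa using hy
    rcases hy2.lt_or_eq with h5 | h5
    · exact ⟨y, by simpa using h5, hyz⟩
    · exfalso
      have h6 : f y = g y := hfg y (by rw [h5]; exact hrr.le) hy2
      have h7 : y = y' := hfi hy (ball_subset_closedBall hy') (h6.trans hyz)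
      rw [← h7] at hy'
      have : ‖y‖ < r := by simpa using hy'
      exact absurd h5 this.ne

theorem map_nhds_of_reg [FiniteDimensional ℝ V] {f : V → V} {y : V} (h : ContDiffAt ℝ ∞ f y)
    (hb : Bijective (fderiv ℝ f y)) : map f (𝓝 y) = 𝓝 (f y) := by
  have : CompleteSpace V := FiniteDimensional.complete ℝ V
  have h1 : HasStrictFDerivAt f (fderiv ℝ f y) y := h.hasStrictFDerivAt (by simp)
  exact h1.map_nhds_eq_of_surj (LinearMap.range_eq_top.2 hb.2)

end Pool.Agent.N213.OC
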