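import Pool.Agent.N550.OC.Stm
import Pool.Agent.N213.OC.Top

/-!
# Project OC (helper213): the images of the balls under a family and its resolution
-/
set_option autoImplicit false
open Set Filter Topology Metric Function
open scoped ContDiff

namespace Pool.Agent.N213.OC
open Pool.Agent.Y522 Pool.Agent.N550.OC

variable {k : ℕ} {g F : ℝ → E k → E k} {ε ρ τ r r' : ℝ}

theorem rankE (hk : 2 ≤ k) : 1 < Module.rank ℝ (E k) := by
  rw [← Module.finrank_eq_rank, finrank_euclideanSpace_fin]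
  exact_mod_cast hk

theorem fam_cont (hg : Fam k g ε) {t : ℝ} {y : E k} (ht : |t| < ε) (hy : ‖y‖ < ε) :
    ContinuousAt (g t) y := by
  have h := hg.2.1 t y ht hy
  exact ContinuousAt.comp (f := fun y : E k => (t, y)) (g := fun p : ℝ × E k => g p.1 p.2) h
    (by fun_prop)

theorem fam_map (hg : Fam k g ε) {t : ℝ} {y : E k} (ht : |t| < ε) (hy : ‖y‖ < ε)
    (h0 : t ≠ 0 ∨ y ≠ 0) : map (g t) (𝓝 y) = 𝓝 (g t y) := by
  obtain ⟨h1, h2⟩ := hg.2.2.1 t y ht hy h0
  refine map_nhds_of_reg ?_ h2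
  exact ContDiffAt.comp (f := fun y : E k => (t, y)) (g := fun p : ℝ × E k => g p.1 p.2) y h1
    (by fun_prop)

/-- `g s` maps open subsets of the ball to open sets, also for `s = 0` -/
theorem key_nhds (hk : 2 ≤ k) (hg : Fam k g ε) {s : ℝ} (hs : |s| < ε) {y : E k} (hy : ‖y‖ < ε)
    {U : Set (E k)} (hU : U ∈ 𝓝 y) : g s '' U ∈ 𝓝 (g s y) := by
  by_cases h0 : s ≠ 0 ∨ y ≠ 0
  · rw [← fam_map hg hs hy h0]
    exact image_mem_map hU
  · push Not at h0
    obtain ⟨rfl, rfl⟩ := h0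
    obtain ⟨δ, hδ, hδ'⟩ := Metric.mem_nhds_iff.1 hU
    have hε := hg.1
    set d := min (δ / 2) (ε / 2) with hd
    have hd0 : 0 < d := by positivity
    have hdδ : d < δ := lt_of_le_of_lt (min_le_left _ _) (by linarith)
    have hdε : d < ε := lt_of_le_of_lt (min_le_right _ _) (by linarith)
    have hlt : ∀ y ∈ closedBall (0 : E k) d, ‖y‖ < ε := fun y hy =>
      lt_of_le_of_lt (by simpa using hy) hdε
    have h1 : g 0 '' ball 0 d ∈ 𝓝 (g 0 0) := by
      refine image_nhds (rankE hk) (g 0) hd0 ?_ ?_ ?_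
      · intro y hy
        exact (fam_cont hg hs (hlt y hy)).continuousWithinAt
      · exact (hg.2.2.2 0 hs).mono (fun y hy => by simpa using hlt y hy)
      · intro y hy hy0
        exact fam_map hg hs (hlt y (ball_subset_closedBall hy)) (Or.inr hy0)
    exact mem_of_superset h1 (image_mono ((ball_subset_ball hdδ.le).trans hδ'))

theorem key_open (hk : 2 ≤ k) (hg : Fam k g ε) {s : ℝ} (hs : |s| < ε) {U : Set (E k)}
    (hU : IsOpen U) (hUε : U ⊆ ball 0 ε) : IsOpen (g s '' U) := by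
  rw [isOpen_iff_mem_nhds]
  rintro _ ⟨y, hy, rfl⟩
  exact key_nhds hk hg hs (by simpa using hUε hy) (hU.mem_nhds hy)

theorem res_open (hF : Res k g F ε ρ τ r r') {s : ℝ} (hs : |s| < 2 * τ) {U : Set (E k)}
    (hU : IsOpen U) (hUr : U ⊆ closedBall 0 r) : IsOpen (F s '' U) := by
  obtain ⟨h1, h2, h3, h4, h5, h6, h7, h8, h9, h10, h11, h12⟩ := hF
  rw [isOpen_iff_mem_nhds]
  rintro _ ⟨y, hy, rfl⟩
  have hyr : ‖y‖ ≤ r := by simpa using hUr hy
  have hm : map (F s) (𝓝 y) = 𝓝 (F s y) := by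
    refine map_nhds_of_reg ?_ (h8 s y hs hyr)
    exact ContDiffAt.comp (f := fun y : E k => (s, y)) (g := fun p : ℝ × E k => F p.1 p.2) y
      (h7 s y hs (lt_of_le_of_lt hyr h6)) (by fun_prop)
  rw [← hm]
  exact image_mem_map (hU.mem_nhds hy)

theorem res_cont (hF : Res k g F ε ρ τ r r') {s : ℝ} (hs : |s| < 2 * τ) {y : E k} (hy : ‖y‖ < ε) :
    ContinuousAt (F s) y := by
  have h7 := hF.2.2.2.2.2.2.1
  exact (ContDiffAt.comp (f := fun y : E k => (s, y)) (g := fun p : ℝ × E k => F p.1 p.2) y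
      (h7 s y hs hy) (by fun_prop)).continuousAt

/-- the images of the ball of radius `r` are the same -/
theorem key_image (hk : 2 ≤ k) (hg : Fam k g ε) (hF : Res k g F ε ρ τ r r') {s : ℝ}
    (hs : |s| < 2 * τ) : F s '' ball 0 r = g s '' ball 0 r := by
  have hF' := hF
  obtain ⟨h1, h2, h3, h4, h5, h6, h7, h8, h9, h10, h11, h12⟩ := hF
  have hsε : |s| < ε := hs.trans h3
  have hlt : ∀ y ∈ closedBall (0 : E k) r, ‖y‖ < ε := fun y hy =>
    lt_of_le_of_lt (by simpa using hy) h6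
  have hgc : ContinuousOn (g s) (closedBall 0 r) := fun y hy =>
    (fam_cont hg hsε (hlt y hy)).continuousWithinAt
  have hFc : ContinuousOn (F s) (closedBall 0 r) := fun y hy =>
    (res_cont hF' hs (hlt y hy)).continuousWithinAt
  have hgi : InjOn (g s) (closedBall 0 r) := (hg.2.2.2 s hsε).mono
    (fun y hy => by simpa using hlt y hy)
  have hgo : IsOpen (g s '' ball 0 r) := key_open hk hg hsε isOpen_ball (ball_subset_ball h6.le)
  have hFo : IsOpen (F s '' ball 0 r) := res_open hF' hs isOpen_ball ball_subset_closedBall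
  have hfg : ∀ y : E k, r' ≤ ‖y‖ → ‖y‖ ≤ r → F s y = g s y := fun y hy1 hy2 =>
    h10 s y hs hy1 (lt_of_le_of_lt hy2 h6)
  have hex : ∃ y : E k, r' ≤ ‖y‖ ∧ ‖y‖ < r := by
    have := nontriv (rankE hk)
    obtain ⟨y, hy⟩ := exists_norm_eq (E k) h4.le
    exact ⟨y, hy.ge, by rw [hy]; exact h5⟩
  exact Subset.antisymm (image_sub hFc hgc hgo (h9 s hs) h5 hfg hex)
    (image_sub hgc hFc hFo hgi h5 (fun y a b => (hfg y a b).symm) hex)

/-- a ball around `g 0 0` is contained in all the images of the ball of radius `r`, small `t` -/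
theorem key_ball (hk : 2 ≤ k) (hg : Fam k g ε) (hr : 0 < r) (hrε : r < ε) :
    ∃ d > 0, ∃ t₀ > 0, t₀ ≤ ε ∧ ∀ t : ℝ, |t| < t₀ → ball (g 0 0) d ⊆ g t '' ball 0 r := by
  have hε := hg.1
  have h00 : |(0:ℝ)| < ε := by simpa using hε
  have hlt : ∀ y ∈ closedBall (0 : E k) r, ‖y‖ < ε := fun y hy =>
    lt_of_le_of_lt (by simpa using hy) hrε
  have hc0 : ContinuousOn (g 0) (closedBall 0 r) := fun y hy =>
    (fam_cont hg h00 (hlt y hy)).continuousWithinAt
  have hK : IsCompact (g 0 '' sphere 0 r) :=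
    (isCompact_sphere _ _).image_of_continuousOn (hc0.mono sphere_subset_closedBall)
  have hcK : g 0 0 ∉ g 0 '' sphere 0 r := by
    rintro ⟨y, hy, hy'⟩
    have := hg.2.2.2 0 h00 (by simpa using hlt y (sphere_subset_closedBall hy))
      (mem_ball_self hε) hy'
    rw [this] at hy
    simp at hy
    exact hr.ne hy
  obtain ⟨η, hη, hη'⟩ := Metric.mem_nhds_iff.1 (hK.isClosed.isOpen_compl.mem_nhds hcK)
  have hev : ∀ᶠ t in 𝓝 (0:ℝ), ∀ y ∈ closedBall (0 : E k) r, dist (g t y) (g 0 y) < η / 2 := by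
    refine (isCompact_closedBall (0 : E k) r).eventually_forall_of_forall_eventually ?_
    intro y hy
    have hA : ContinuousAt (fun p : ℝ × E k => g p.1 p.2) (0, y) := hg.2.1 0 y h00 (hlt y hy)
    have hB : ContinuousAt (fun p : ℝ × E k => g 0 p.2) (0, y) :=
      ContinuousAt.comp (f := fun p : ℝ × E k => p.2) (g := g 0)
        (fam_cont hg h00 (hlt y hy)) continuousAt_snd
    have hD : ContinuousAt (fun p : ℝ × E k => dist (g p.1 p.2) (g 0 p.2)) (0, y) := hA.dist hB
    refine hD.eventually_lt continuousAt_const ?_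
    simpa using half_pos hη
  obtain ⟨t₁, ht₁, hT⟩ := Metric.eventually_nhds_iff.1 hev
  refine ⟨η / 2, half_pos hη, min t₁ ε, lt_min ht₁ hε, min_le_right _ _, ?_⟩
  intro t ht
  have ht1 : |t| < t₁ := lt_of_lt_of_le ht (min_le_left _ _)
  have htε : |t| < ε := lt_of_lt_of_le ht (min_le_right _ _)
  have hTt := hT (y := t) (by simpa [Real.dist_eq] using ht1)
  have hgc : ContinuousOn (g t) (closedBall 0 r) := fun y hy =>
    (fam_cont hg htε (hlt y hy)).continuousWithinAt
  have hgo : IsOpen (g t '' ball 0 r) := key_open hk hg htε isOpen_ball (ball_subset_ball hrε.le)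
  refine (convex_ball (g 0 0) (η/2)).isPreconnected.subset_of_closure_inter_subset hgo ?_ ?_
  · refine ⟨g t 0, ?_, mem_image_of_mem _ (mem_ball_self hr)⟩
    exact hTt 0 (mem_closedBall_self hr.le)
  · rintro z ⟨hz1, hz2⟩
    have hcl : closure (g t '' ball 0 r) ⊆ g t '' closedBall 0 r :=
      closure_minimal (image_mono ball_subset_closedBall)
        ((isCompact_closedBall _ _).image_of_continuousOn hgc).isClosed
    obtain ⟨y, hy, rfl⟩ := hcl hz1
    rcases (mem_closedBall.1 hy).lt_or_eq with h5 | h5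
    · exact ⟨y, h5, rfl⟩
    · exfalso
      refine hη' ?_ (mem_image_of_mem (g 0) (mem_sphere.2 h5))
      rw [mem_ball] at hz2 ⊢
      calc dist (g 0 y) (g 0 0) ≤ dist (g 0 y) (g t y) + dist (g t y) (g 0 0) := dist_triangle _ _ _
        _ < η / 2 + η / 2 := by
          refine add_lt_add ?_ hz2
          rw [dist_comm]; exact hTt y hy
        _ = η := by ring

end Pool.Agent.N213.OC
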